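import Pool.Agent.H10.TU.Lvm
import Pool.Agent.H47.ST.ActZ
import Pool.Agent.H47.QG.IterA

/-!
# Project TU: the sequence space of length `m N` as `m` chunks

The chunk number `i` of a sequence of length `m N` is `(y_{iN}, x_{iN+1}, …, y_{iN+N-1}, x_{(i+1)N})`;
as a sequence of length `N` its `x_0` is `x_{(i+1)N}`.
-/

set_option autoImplicit false

open Filter Topology Metric

namespace Pool.Agent.H77.TU

open Pool.Agent.H47.ST (Iz fS zw eK shs)
open Pool.Agent.H47.QG (Pt action flw oseq Gen ind hess)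
open Pool.Agent.H10.TU (cpl Amf)

variable {n m N : ℕ}

/-- the shift of the chunk number -/
def shf (m N : ℕ) [NeZero m] [NeZero N] (n : ℕ) (b : Iz n N) : Equiv.Perm (Fin m) :=
  match b.2 with
  | Sum.inl _ => if b.1 = 0 then Equiv.addRight 1 else Equiv.refl _
  | Sum.inr _ => Equiv.refl _

/-- the coordinates of the chunks -/
def cp (n m N : ℕ) [NeZero m] [NeZero N] : Fin m × Iz n N ≃ Iz n (m * N) where
  toFun p := (finProdFinEquiv (shf m N n p.2 p.1, p.2.1), p.2.2)
  invFun a := ((shf m N n ((finProdFinEquiv.symm a.1).2, a.2)).symm (finProdFinEquiv.symm a.1).1,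
    ((finProdFinEquiv.symm a.1).2, a.2))
  left_inv p := by
    obtain ⟨i, k, s⟩ := p
    show ((shf m N n ((finProdFinEquiv.symm (finProdFinEquiv (shf m N n (k, s) i, k))).2, s)).symm
      (finProdFinEquiv.symm (finProdFinEquiv (shf m N n (k, s) i, k))).1,
      ((finProdFinEquiv.symm (finProdFinEquiv (shf m N n (k, s) i, k))).2, s)) = (i, (k, s))
    rw [Equiv.symm_apply_apply, Equiv.symm_apply_apply]
  right_inv a := by
    obtain ⟨j, s⟩ := a
    show (finProdFinEquiv (shf m N n ((finProdFinEquiv.symm j).2, s)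
      ((shf m N n ((finProdFinEquiv.symm j).2, s)).symm (finProdFinEquiv.symm j).1),
      (finProdFinEquiv.symm j).2), s) = (j, s)
    rw [Equiv.apply_symm_apply, Prod.mk.eta, Equiv.apply_symm_apply]

/-- the chunks of a sequence -/
def ck (n m N : ℕ) [NeZero m] [NeZero N] (t : Iz n (m * N) → ℝ) (i : Fin m) (b : Iz n N) : ℝ :=
  t (cp n m N (i, b))

/-- the first `x` -/
def fx (n N : ℕ) [NeZero N] : (Iz n N → ℝ) →ₗ[ℝ] (Fin n → ℝ) where
  toFun w a := w (0, Sum.inl a)
  map_add' _ _ := rfl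
  map_smul' _ _ := rfl

/-- the first `y` -/
def fy (n N : ℕ) [NeZero N] : (Iz n N → ℝ) →ₗ[ℝ] (Fin n → ℝ) where
  toFun w a := w (0, Sum.inr a)
  map_add' _ _ := rfl
  map_smul' _ _ := rfl

section

variable [NeZero m] [NeZero N]

theorem cp_inr (i : Fin m) (k : Fin N) (a : Fin n) :
    cp n m N (i, (k, Sum.inr a)) = (finProdFinEquiv (i, k), Sum.inr a) := rfl

theorem cp_inl (i : Fin m) {k : Fin N} (hk : k ≠ 0) (a : Fin n) :
    cp n m N (i, (k, Sum.inl a)) = (finProdFinEquiv (i, k), Sum.inl a) := by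
  show (finProdFinEquiv (shf m N n (k, Sum.inl a) i, k), Sum.inl a) = _
  unfold shf
  simp only [if_neg hk]
  rfl

theorem cp_inl_zero (i : Fin m) (a : Fin n) :
    cp n m N (i, (0, Sum.inl a)) = (finProdFinEquiv (i + 1, 0), Sum.inl a) := by
  show (finProdFinEquiv (shf m N n (0, Sum.inl a) i, 0), Sum.inl a) = _
  unfold shf
  simp only [if_true]
  rfl

/-- the successor of a position -/
theorem fp_succ [NeZero (m * N)] (i : Fin m) (k : Fin N) :
    (finProdFinEquiv (i, k) + 1 : Fin (m * N)) =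
      finProdFinEquiv (if k + 1 = 0 then i + 1 else i, k + 1) := by
  have h1 := Pool.Agent.H47.QG.IterA_succ N k
  have h2 := Pool.Agent.H47.QG.IterA_succ m i
  have h3 := Pool.Agent.H47.QG.IterA_succ (m * N) (finProdFinEquiv (i, k))
  have hv : ((finProdFinEquiv (i, k) : Fin (m * N)) : ℕ) = k + N * i := rfl
  have hN : 0 < N := Nat.pos_of_neZero N
  apply Fin.ext
  have hi := i.isLt
  have hk := k.isLt
  have hR : ∀ (a : Fin m) (b : Fin N), ((finProdFinEquiv (a, b) : Fin (m * N)) : ℕ) = b + N * a :=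
    fun a b => rfl
  have hz : (k + 1 = 0) ↔ ((k + 1 : Fin N) : ℕ) = 0 :=
    ⟨fun h => by rw [h]; exact Fin.val_zero N, fun h => Fin.ext (by rw [h]; exact (Fin.val_zero N).symm)⟩
  have hmul : N * (i : ℕ) + N ≤ N * m := by
    rw [← Nat.mul_succ]
    exact Nat.mul_le_mul_left N hi
  rw [hR]
  rw [hv] at h3
  rcases h1 with ⟨h4, h5⟩ | ⟨h4, h5⟩
  · have hne : ¬ (k + 1 = 0) := by rw [hz, h5]; omega
    rw [if_neg hne, h5]
    rcases h3 with ⟨-, h6⟩ | ⟨h6, -⟩
    · rw [h6]; omega
    · exfalso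
      rw [Nat.mul_comm m N] at h6
      omega
  · have he : k + 1 = 0 := by rw [hz, h5]
    rw [if_pos he, h5]
    rcases h2 with ⟨h7, h8⟩ | ⟨h7, h8⟩
    · rw [h8]
      have h9 : N * ((i : ℕ) + 1) < N * m := Nat.mul_lt_mul_of_pos_left h7 hN
      rcases h3 with ⟨-, h6⟩ | ⟨h6, -⟩
      · rw [h6]
        rw [Nat.mul_succ]; omega
      · exfalso
        rw [Nat.mul_comm m N, Nat.mul_succ] at *
        omega
    · rw [h8]
      rcases h3 with ⟨h6, -⟩ | ⟨-, h6⟩
      · exfalso
        have h9 : N * ((i : ℕ) + 1) = N * m := by rw [h7]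
        rw [Nat.mul_comm m N] at h6
        rw [Nat.mul_succ] at h9
        omega
      · rw [h6]; simp

theorem cp_succ_inl [NeZero (m * N)] (i : Fin m) (k : Fin N) (a : Fin n) :
    ((finProdFinEquiv (i, k) + 1 : Fin (m * N)), (Sum.inl a : Fin n ⊕ Fin n)) =
      cp n m N (i, (k + 1, Sum.inl a)) := by
  rw [fp_succ]
  by_cases h : k + 1 = 0
  · rw [if_pos h, h, cp_inl_zero]
  · rw [if_neg h, cp_inl i h]

/-- **the action of a sequence in terms of its chunks** -/
theorem fS_ck [NeZero (m * N)] {S : ℕ → Pt n → ℝ} (hper : ∀ j, S (j + N) = S j)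
    (t : Iz n (m * N) → ℝ) :
    fS S (m * N) t = Amf (fS S N) (fx n N) (fy n N) (ck n m N t) := by
  have hS : ∀ (i k : ℕ), S (k + N * i) = S k := by
    intro i k
    induction i with
    | zero => rfl
    | succ i ih => rw [Nat.mul_succ, ← Nat.add_assoc, hper, ih]
  have hterm : ∀ (i : Fin m) (k : Fin N),
      (∑ a, (eK n (m * N) t (finProdFinEquiv (i, k))).2 a *
        ((eK n (m * N) t (finProdFinEquiv (i, k) + 1)).1 a -
          (eK n (m * N) t (finProdFinEquiv (i, k))).1 a) -
        S (finProdFinEquiv (i, k) : Fin (m * N))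
          ((eK n (m * N) t (finProdFinEquiv (i, k) + 1)).1,
            (eK n (m * N) t (finProdFinEquiv (i, k))).2)) =
      (∑ a, (eK n N (ck n m N t i) k).2 a *
        ((eK n N (ck n m N t i) (k + 1)).1 a - (eK n N (ck n m N t i) k).1 a) -
        S k ((eK n N (ck n m N t i) (k + 1)).1, (eK n N (ck n m N t i) k).2)) +
      (if k = 0 then ∑ a, fy n N (ck n m N t i) a *
        (fx n N (ck n m N t i) a - fx n N (ck n m N t (i - 1)) a) else 0) := by
    intro i k
    have e1 : (eK n (m * N) t (finProdFinEquiv (i, k) + 1)).1 =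
        (eK n N (ck n m N t i) (k + 1)).1 := by
      funext a
      show t ((finProdFinEquiv (i, k) + 1 : Fin (m * N)), (Sum.inl a : Fin n ⊕ Fin n)) =
        t (cp n m N (i, (k + 1, Sum.inl a)))
      rw [cp_succ_inl]
    have e2 : (eK n (m * N) t (finProdFinEquiv (i, k))).2 = (eK n N (ck n m N t i) k).2 := rfl
    have e3 : S (finProdFinEquiv (i, k) : Fin (m * N)) = S k := hS i k
    rw [e1, e2, e3]
    by_cases hk : k = 0
    · subst hk
      rw [if_pos rfl]
      have e4 : ∀ a, (eK n (m * N) t (finProdFinEquiv (i, 0))).1 a =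
          fx n N (ck n m N t (i - 1)) a := by
        intro a
        show t (finProdFinEquiv (i, 0), Sum.inl a) = t (cp n m N (i - 1, (0, Sum.inl a)))
        rw [cp_inl_zero, sub_add_cancel]
      have e5 : ∀ a, (eK n N (ck n m N t i) 0).1 a = fx n N (ck n m N t i) a := fun a => rfl
      have e6 : ∀ a, (eK n N (ck n m N t i) 0).2 a = fy n N (ck n m N t i) a := fun a => rfl
      simp only [e4, e5, e6]
      rw [← sub_eq_zero]
      have e7 : ∀ a, fy n N (ck n m N t i) a *
          ((eK n N (ck n m N t i) (0 + 1)).1 a - fx n N (ck n m N t (i - 1)) a) =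
          fy n N (ck n m N t i) a *
            ((eK n N (ck n m N t i) (0 + 1)).1 a - fx n N (ck n m N t i) a) +
          fy n N (ck n m N t i) a *
            (fx n N (ck n m N t i) a - fx n N (ck n m N t (i - 1)) a) := fun a => by ring
      rw [Finset.sum_congr rfl fun a _ => e7 a, Finset.sum_add_distrib]
      ring
    · rw [if_neg hk, add_zero]
      have e4 : (eK n (m * N) t (finProdFinEquiv (i, k))).1 = (eK n N (ck n m N t i) k).1 := by
        funext a
        show t (finProdFinEquiv (i, k), Sum.inl a) = t (cp n m N (i, (k, Sum.inl a)))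
        rw [cp_inl i hk]
      rw [e4]
  unfold fS action Amf cpl
  rw [← finProdFinEquiv.sum_comp, Fintype.sum_prod_type, ← Finset.sum_add_distrib]
  refine Finset.sum_congr rfl fun i _ => ?_
  rw [Finset.sum_congr rfl fun k _ => hterm i k, Finset.sum_add_distrib]
  congr 1
  rw [Finset.sum_ite_eq' Finset.univ (0 : Fin N), if_pos (Finset.mem_univ _)]

/-- the chunks of a periodic orbit -/
theorem ck_zw {f : ℕ → Pt n → Pt n} [NeZero (m * N)] (hfper : ∀ j, f (j + N) = f j) (w : Pt n)
    (hw : flw f N w = w) (i : Fin m) : ck n m N (zw f (m * N) w) i = zw f N w := by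
  funext b
  show zw f (m * N) w (cp n m N (i, b)) = zw f N w b
  rw [Pool.Agent.H47.ST.zw_fold m N hfper w hw]
  show zw f N w (shs n m N (cp n m N (i, b))) = zw f N w b
  congr 1
  obtain ⟨k, s⟩ := b
  show (Fin.ofNat N ((k : ℕ) + N * (shf m N n (k, s) i : Fin m)), s) = (k, s)
  congr 1
  apply Fin.ext
  show ((k : ℕ) + N * (shf m N n (k, s) i : Fin m)) % N = k
  rw [Nat.add_mul_mod_self_left, Nat.mod_eq_of_lt k.isLt]

/-- the chunks as a linear equivalence -/
def ckE (n m N : ℕ) [NeZero m] [NeZero N] :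
    (Iz n (m * N) → ℝ) ≃ₗ[ℝ] (Fin m → Iz n N → ℝ) where
  toFun := ck n m N
  map_add' _ _ := rfl
  map_smul' _ _ := rfl
  invFun u a := u ((cp n m N).symm a).1 ((cp n m N).symm a).2
  left_inv t := by
    funext a
    show t (cp n m N ((cp n m N).symm a)) = t a
    rw [Equiv.apply_symm_apply]
  right_inv u := by
    funext i b
    show u ((cp n m N).symm (cp n m N (i, b))).1 ((cp n m N).symm (cp n m N (i, b))).2 = u i b
    rw [Equiv.symm_apply_apply]

theorem ckE_norm (v : Iz n (m * N) → ℝ) : ‖ckE n m N v‖ = ‖v‖ := by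
  apply le_antisymm
  · refine (pi_norm_le_iff_of_nonneg (norm_nonneg _)).2 fun i => ?_
    refine (pi_norm_le_iff_of_nonneg (norm_nonneg _)).2 fun b => ?_
    exact norm_le_pi_norm v (cp n m N (i, b))
  · refine (pi_norm_le_iff_of_nonneg (norm_nonneg _)).2 fun a => ?_
    have h1 : v a = ckE n m N v ((cp n m N).symm a).1 ((cp n m N).symm a).2 := by
      show v a = v (cp n m N ((cp n m N).symm a))
      rw [Equiv.apply_symm_apply]
    rw [h1]
    exact (norm_le_pi_norm (ckE n m N v ((cp n m N).symm a).1) _).trans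
      (norm_le_pi_norm (ckE n m N v) _)

end

end Pool.Agent.H77.TU
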