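import Pool.Agent.H21.TU.HomS

/-!
# Project TU: from linear walls to nonlinear walls

`Phi_pairs`: a list of walls is replaced by another one, one wall at a time. `Phi_mixed`: the
integral of the walls `G` (close to linear ones) and of linear walls is `±1`.
-/

set_option autoImplicit false

open Filter Topology Metric

namespace Pool.Agent.H77.TU

open Pool.Agent.H21.TU

variable {ι : Type*} [Fintype ι] [DecidableEq ι]

/-- the affine function with coefficients `c` vanishing at `z` -/
def lf (c z : ι → ℝ) : (ι → ℝ) → ℝ := fun y => ∑ i, c i * (y i - z i)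

omit [DecidableEq ι] in
theorem lf_continuous (c z : ι → ℝ) : Continuous (lf c z) := by
  unfold lf
  fun_prop

/-- replacement of a list of walls -/
theorem Phi_pairs (F : Type*) [Field F] {z : ι → ℝ} {r1 r2 ρ : ℝ} (hr : 0 < r1)
    (h1 : r1 < ρ) (h2 : ρ < r2) (P : List (((ι → ℝ) → ℝ) × ((ι → ℝ) → ℝ)))
    (R : List ((ι → ℝ) → ℝ)) :
    ∀ (R0 : List ((ι → ℝ) → ℝ)), Fintype.card ι = R0.length + P.length + R.length →
    (∀ p ∈ P, ContinuousOn p.1 (closedBall z r2) ∧ ContinuousOn p.2 (closedBall z r2)) →
    (∀ G ∈ R0 ++ R, ContinuousOn G (closedBall z r2)) →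
    (∀ y ∈ closedBall z r2, r1 ≤ ‖y - z‖ → (∀ G ∈ R0 ++ R, G y = 0) →
      (∀ p ∈ P, min (p.1 y) (p.2 y) ≤ 0 ∧ 0 ≤ max (p.1 y) (p.2 y)) → False) →
    ∀ᶠ M : ℕ in atTop, Phi (F := F) (blf M z ρ) 0 (fun _ => 1)
        ((R0 ++ (P.map Prod.fst ++ R)).map (gr M)) =
      Phi (F := F) (blf M z ρ) 0 (fun _ => 1) ((R0 ++ (P.map Prod.snd ++ R)).map (gr M)) := by
  induction P with
  | nil => intro R0 _ _ _ _; exact Eventually.of_forall fun M => rfl
  | cons p P ih =>
    intro R0 hD hc hc' h
    have e1 := Phi_shell (F := F) (z := z) (r1 := r1) (r2 := r2) ⟨hr, h1.trans h2⟩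
      (W1 := R0) (W2 := P.map Prod.fst ++ R) (φ := p.1) (φ' := p.2)
      (by rw [hD]; simp only [List.length_cons, List.length_append, List.length_map]; omega)
      (by
        intro G hG
        rcases List.mem_cons.1 hG with rfl | hG
        · exact (hc p List.mem_cons_self).1
        rcases List.mem_cons.1 hG with rfl | hG
        · exact (hc p List.mem_cons_self).2
        rcases List.mem_append.1 hG with hG | hG
        · exact hc' G (List.mem_append_left _ hG)
        rcases List.mem_append.1 hG with hG | hG
        · obtain ⟨q, hq, rfl⟩ := List.mem_map.1 hG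
          exact (hc q (List.mem_cons_of_mem _ hq)).1
        · exact hc' G (List.mem_append_right _ hG))
      (by
        intro y hy hy1 hz hmin hmax
        refine h y hy hy1 ?_ ?_
        · intro G hG
          rcases List.mem_append.1 hG with hG | hG
          · exact hz G (List.mem_append_left _ hG)
          · exact hz G (List.mem_append_right _ (List.mem_append_right _ hG))
        · intro q hq
          rcases List.mem_cons.1 hq with rfl | hq
          · exact ⟨hmin, hmax⟩
          · have h3 := hz q.1 (List.mem_append_right _ (List.mem_append_left _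
              (List.mem_map.2 ⟨q, hq, rfl⟩)))
            rw [h3]
            exact ⟨min_le_left _ _, le_max_left _ _⟩) h1 h2
    have e2 := ih (R0 ++ [p.2])
      (by rw [hD]; simp only [List.length_cons, List.length_append, List.length_nil]; omega)
      (fun q hq => hc q (List.mem_cons_of_mem _ hq))
      (by
        intro G hG
        rcases List.mem_append.1 hG with hG | hG
        · rcases List.mem_append.1 hG with hG | hG
          · exact hc' G (List.mem_append_left _ hG)
          · rw [List.mem_singleton] at hG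
            subst hG
            exact (hc p List.mem_cons_self).2
        · exact hc' G (List.mem_append_right _ hG))
      (by
        intro y hy hy1 hz hP
        refine h y hy hy1 ?_ ?_
        · intro G hG
          rcases List.mem_append.1 hG with hG | hG
          · exact hz G (List.mem_append_left _ (List.mem_append_left _ hG))
          · exact hz G (List.mem_append_right _ hG)
        · intro q hq
          rcases List.mem_cons.1 hq with rfl | hq
          · have h3 := hz q.2 (List.mem_append_left _ (List.mem_append_right _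
              (List.mem_singleton.2 rfl)))
            rw [h3]
            exact ⟨min_le_right _ _, le_max_right _ _⟩
          · exact hP q hq)
    filter_upwards [e1, e2] with M h3 h4
    have e3 : R0 ++ ((p :: P).map Prod.fst ++ R) = R0 ++ p.1 :: (P.map Prod.fst ++ R) := rfl
    have e4 : R0 ++ ((p :: P).map Prod.snd ++ R) = (R0 ++ [p.2]) ++ (P.map Prod.snd ++ R) := by
      simp
    have e5 : R0 ++ p.2 :: (P.map Prod.fst ++ R) = (R0 ++ [p.2]) ++ (P.map Prod.fst ++ R) := by
      simp
    rw [e3, h3, e5, h4, e4]

omit [DecidableEq ι] in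
/-- linear forms with trivial common kernel are independent -/
theorem li_of_ker {D : ℕ} (hD : D = Fintype.card ι) (c : Fin D → ι → ℝ)
    (h : ∀ v : ι → ℝ, (∀ j, ∑ i, c j i * v i = 0) → v = 0) : LinearIndependent ℝ c := by
  let φ : (ι → ℝ) →ₗ[ℝ] (Fin D → ℝ) :=
    { toFun := fun v j => ∑ i, c j i * v i
      map_add' := fun u v => by
        funext j
        simp only [Pi.add_apply, mul_add, Finset.sum_add_distrib]
      map_smul' := fun a v => by
        funext j
        simp only [Pi.smul_apply, smul_eq_mul, RingHom.id_apply, Finset.mul_sum]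
        exact Finset.sum_congr rfl fun i _ => by ring }
  have hinj : Function.Injective φ := by
    rw [← LinearMap.ker_eq_bot, LinearMap.ker_eq_bot']
    intro v hv
    exact h v fun j => congrFun hv j
  have hdim : Module.finrank ℝ (ι → ℝ) = Module.finrank ℝ (Fin D → ℝ) := by
    rw [Module.finrank_pi, Module.finrank_fin_fun, hD]
  have hsurj : Function.Surjective φ :=
    (LinearMap.injective_iff_surjective_of_finrank_eq_finrank hdim).1 hinj
  rw [Fintype.linearIndependent_iff]
  intro g hg
  obtain ⟨v, hv⟩ := hsurj g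
  have h1 : ∑ j, g j * g j = 0 := by
    have h2 : ∀ j, g j = ∑ i, c j i * v i := fun j => (congrFun hv j).symm
    calc ∑ j, g j * g j = ∑ j, g j * ∑ i, c j i * v i :=
          Finset.sum_congr rfl fun j _ => by rw [← h2 j]
      _ = ∑ i, (∑ j, g j • c j) i * v i := by
          simp only [Finset.mul_sum, Finset.sum_apply, Pi.smul_apply, smul_eq_mul,
            Finset.sum_mul]
          rw [Finset.sum_comm]
          exact Finset.sum_congr rfl fun i _ => Finset.sum_congr rfl fun j _ => by ring
      _ = 0 := by rw [hg]; simp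
  intro j
  have h3 := (Finset.sum_eq_zero_iff_of_nonneg fun j _ => mul_self_nonneg (g j)).1 h1 j
    (Finset.mem_univ j)
  exact mul_self_eq_zero.1 h3

/-- the integral of a list of linear walls with trivial common kernel -/
theorem Phi_lfs (F : Type*) [Field F] (C : List (ι → ℝ)) (hC : C.length = Fintype.card ι)
    (h : ∀ v : ι → ℝ, (∀ c ∈ C, ∑ i, c i * v i = 0) → v = 0) (z : ι → ℝ) {ρ : ℝ} (hρ : 0 < ρ) :
    ∀ᶠ M : ℕ in atTop, Phi (F := F) (blf M z ρ) 0 (fun _ => 1)
        ((C.map fun c => lf c z).map (gr M)) ≠ 0 := by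
  have hli : LinearIndependent ℝ (fun j : Fin (Fintype.card ι) => C.get (Fin.cast hC.symm j)) := by
    refine li_of_ker rfl _ fun v hv => h v fun c hc => ?_
    obtain ⟨j, rfl⟩ := List.get_of_mem hc
    exact hv (Fin.cast hC j)
  filter_upwards [Phi_rlin F _ hli z hρ] with M h1
  have e1 : rlin (fun j : Fin (Fintype.card ι) => C.get (Fin.cast hC.symm j)) z =
      C.map fun c => lf c z := by
    refine List.ext_get ?_ ?_
    · simp [rlin, hC]
    · intro k hk1 hk2
      simp only [rlin, List.get_eq_getElem, List.getElem_ofFn, List.getElem_map]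
      rfl
  rw [e1] at h1
  rcases h1 with h1 | h1
  · rw [h1]; exact one_ne_zero
  · rw [h1]; exact neg_ne_zero.2 one_ne_zero

/-- **the integral of nonlinear walls** -/
theorem Phi_mixed (F : Type*) [Field F] {z : ι → ℝ} {r1 r2 ρ : ℝ} (hr : 0 < r1)
    (h1 : r1 < ρ) (h2 : ρ < r2) (P : List ((ι → ℝ) × ((ι → ℝ) → ℝ))) (C : List (ι → ℝ))
    (hD : Fintype.card ι = P.length + C.length)
    (hker : ∀ v : ι → ℝ, (∀ p ∈ P, ∑ i, p.1 i * v i = 0) → (∀ c ∈ C, ∑ i, c i * v i = 0) → v = 0)
    (hcont : ∀ p ∈ P, ContinuousOn p.2 (closedBall z r2))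
    (hshell : ∀ y ∈ closedBall z r2, r1 ≤ ‖y - z‖ →
      (∀ p ∈ P, min (lf p.1 z y) (p.2 y) ≤ 0 ∧ 0 ≤ max (lf p.1 z y) (p.2 y)) →
      (∀ c ∈ C, lf c z y = 0) → False) :
    ∀ᶠ M : ℕ in atTop, Phi (F := F) (blf M z ρ) 0 (fun _ => 1)
        ((P.map Prod.snd ++ C.map fun c => lf c z).map (gr M)) ≠ 0 := by
  have e1 := Phi_pairs F (z := z) hr h1 h2 (P.map fun p => (lf p.1 z, p.2))
    (C.map fun c => lf c z) []
    (by simp only [List.length_nil, List.length_map]; omega)
    (by
      intro q hq
      obtain ⟨p, hp, rfl⟩ := List.mem_map.1 hq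
      exact ⟨(lf_continuous _ _).continuousOn, hcont p hp⟩)
    (by
      intro G hG
      rw [List.nil_append] at hG
      obtain ⟨c, hc, rfl⟩ := List.mem_map.1 hG
      exact (lf_continuous _ _).continuousOn)
    (by
      intro y hy hy1 hz hP
      refine hshell y hy hy1 (fun p hp => hP _ (List.mem_map.2 ⟨p, hp, rfl⟩)) fun c hc => ?_
      exact hz _ (List.mem_append_right _ (List.mem_map.2 ⟨c, hc, rfl⟩)))
  have e2 := Phi_lfs F (P.map Prod.fst ++ C)
    (by simp only [List.length_append, List.length_map]; omega)
    (fun v hv => hker v (fun p hp => hv _ (List.mem_append_left _ (List.mem_map.2 ⟨p, hp, rfl⟩)))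
      fun c hc => hv _ (List.mem_append_right _ hc)) z (hr.trans h1)
  filter_upwards [e1, e2] with M h3 h4
  simp only [List.nil_append, List.map_append, List.map_map] at h3 h4 ⊢
  intro h5
  apply h4
  rw [← h5]
  exact h3

end Pool.Agent.H77.TU
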