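import Pool.Agent.H10.TU.Lev1
import Pool.Agent.H47.QG.IdxA

/-!
# Project TU: negative subspaces, negative families, linear forms of a negative subspace
-/

set_option autoImplicit false

open Filter Topology Metric Module QuadraticForm

namespace Pool.Agent.H77.TU

open Pool.Agent.H47.QG (hess hess_apply exists_sigNeg le_sigNeg)
open Pool.Agent.H10.TU

/-- subspaces of every smaller dimension -/
theorem exists_sub {E : Type*} [AddCommGroup E] [Module ℝ E] [FiniteDimensional ℝ E]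
    (W : Submodule ℝ E) {d : ℕ} (hd : d ≤ finrank ℝ W) :
    ∃ W' : Submodule ℝ E, W' ≤ W ∧ finrank ℝ W' = d := by
  classical
  let b := Module.finBasis ℝ W
  let g : Fin d → E := fun i => (b (Fin.castLE hd i) : E)
  have hg : LinearIndependent ℝ g := by
    have h1 : LinearIndependent ℝ (fun i : Fin d => b (Fin.castLE hd i)) :=
      b.linearIndependent.comp _ (Fin.castLE_injective hd)
    exact h1.map' W.subtype (Submodule.ker_subtype W)
  refine ⟨Submodule.span ℝ (Set.range g), ?_, ?_⟩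
  · rw [Submodule.span_le]
    rintro _ ⟨i, rfl⟩
    exact (b (Fin.castLE hd i)).2
  · rw [finrank_span_eq_card hg, Fintype.card_fin]

theorem exists_neg_sub {E : Type*} [AddCommGroup E] [Module ℝ E] [FiniteDimensional ℝ E]
    (Q : QuadraticForm ℝ E) {d : ℕ} (hd : d ≤ sigNeg Q) :
    ∃ W : Submodule ℝ E, finrank ℝ W = d ∧ ∀ v ∈ W, v ≠ 0 → Q v < 0 := by
  obtain ⟨W0, h0, h1⟩ := exists_sigNeg Q
  obtain ⟨W, hW, hW'⟩ := exists_sub W0 (hd.trans h0.ge)
  exact ⟨W, hW', fun v hv => h1 v (hW hv)⟩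

/-- A subspace of `ℝ^ι` is given by linear equations. -/
theorem exists_rows {ι : Type*} [Fintype ι] [DecidableEq ι] (W : Submodule ℝ (ι → ℝ)) {d r : ℕ}
    (hW : finrank ℝ W = d) (hr : d + r = Fintype.card ι) :
    ∃ k : Fin r → ι → ℝ, ∀ v : ι → ℝ, v ∈ W ↔ ∀ j, ∑ i, k j i * v i = 0 := by
  have h1 : finrank ℝ ((ι → ℝ) ⧸ W) = finrank ℝ (Fin r → ℝ) := by
    have h2 := Submodule.finrank_quotient_add_finrank W
    rw [Module.finrank_pi, hW] at h2
    rw [Module.finrank_fin_fun]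
    omega
  let φ : (ι → ℝ) →ₗ[ℝ] (Fin r → ℝ) := (LinearEquiv.ofFinrankEq _ _ h1).toLinearMap ∘ₗ W.mkQ
  refine ⟨fun j i => φ (Pi.single i 1) j, fun v => ?_⟩
  have h3 : ∀ j, ∑ i, φ (Pi.single i 1) j * v i = φ v j := by
    intro j
    conv_rhs => rw [pi_eq_sum_univ' v]
    rw [map_sum, Finset.sum_apply]
    refine Finset.sum_congr rfl fun i _ => ?_
    rw [map_smul, Pi.smul_apply, smul_eq_mul, mul_comm]
  simp only [h3]
  rw [← Submodule.Quotient.mk_eq_zero W]
  constructor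
  · intro h j
    show (LinearEquiv.ofFinrankEq _ _ h1) (Submodule.Quotient.mk v) j = 0
    rw [h, map_zero]
    rfl
  · intro h
    have h4 : (LinearEquiv.ofFinrankEq _ _ h1) (Submodule.Quotient.mk v : (ι → ℝ) ⧸ W) = 0 :=
      funext h
    exact (LinearEquiv.map_eq_zero_iff _).1 h4

/-- linear equations of a negative subspace -/
theorem neg_rows {ι : Type*} [Fintype ι] [DecidableEq ι] (Q : QuadraticForm ℝ (ι → ℝ)) {d r : ℕ}
    (hd : d ≤ sigNeg Q) (hr : d + r = Fintype.card ι) :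
    ∃ k : Fin r → ι → ℝ, ∀ v : ι → ℝ, (∀ j, ∑ i, k j i * v i = 0) → v ≠ 0 → Q v < 0 := by
  obtain ⟨W, hW, h1⟩ := exists_neg_sub Q hd
  obtain ⟨k, hk⟩ := exists_rows W hW hr
  exact ⟨k, fun v hv => h1 v ((hk v).2 hv)⟩

/-- negative families -/
theorem exists_negFam {E : Type*} [NormedAddCommGroup E] [NormedSpace ℝ E]
    [FiniteDimensional ℝ E] {f : E → ℝ} (hf : ContDiff ℝ 2 f) (z : E) {d : ℕ}
    (hd : d ≤ sigNeg (hess f z)) : ∃ e : Fin d → E, NegFam f z e := by
  obtain ⟨W, hW, h1⟩ := exists_neg_sub _ hd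
  let B : LinearMap.BilinForm ℝ W :=
    LinearMap.mk₂ ℝ (fun v w : W => D2 f z (v : E) (w : E))
      (fun v v' w => by simp) (fun a v w => by simp) (fun v w w' => by simp)
      (fun a v w => by simp)
  have hB : LinearMap.IsSymm B := ⟨fun v w => D2_sym hf z (v : E) (w : E)⟩
  have hfin : FiniteDimensional ℝ W := inferInstance
  let i2 : Invertible (2 : ℝ) := invertibleOfNonzero two_ne_zero
  obtain ⟨b, hb⟩ := LinearMap.BilinForm.exists_orthogonal_basis (K := ℝ) (V := W) (B := B) hB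
  refine ⟨fun i => (b (Fin.cast hW.symm i) : E), ⟨fun i j hij => ?_, fun i => ?_⟩⟩
  · have h2 : Fin.cast hW.symm i ≠ Fin.cast hW.symm j := fun h => hij (Fin.cast_injective _ h)
    exact hb h2
  · have h2 : b (Fin.cast hW.symm i) ≠ 0 := b.ne_zero _
    have h3 := h1 _ (b (Fin.cast hW.symm i)).2 (fun h => h2 (Subtype.ext h))
    rw [hess_apply] at h3
    exact h3

/-- a form which is negative on the common kernel of linear forms is bounded there by
`- c ‖v‖ ^ 2` -/
theorem quad_le {ι : Type*} [Fintype ι] {B : (ι → ℝ) →L[ℝ] (ι → ℝ) →L[ℝ] ℝ} {r : ℕ}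
    {k : Fin r → ι → ℝ} (h : ∀ v : ι → ℝ, (∀ j, ∑ i, k j i * v i = 0) → v ≠ 0 → B v v < 0) :
    ∃ c > 0, ∀ v : ι → ℝ, (∀ j, ∑ i, k j i * v i = 0) → B v v ≤ - c * ‖v‖ ^ 2 := by
  set K : Set (ι → ℝ) := {v | (∀ j, ∑ i, k j i * v i = 0)} ∩ sphere 0 1 with hK
  have hKc : IsCompact K := by
    refine (isCompact_sphere (0 : ι → ℝ) 1).inter_left ?_
    rw [Set.ofPred_forall]
    refine isClosed_iInter fun j => isClosed_eq ?_ continuous_const
    fun_prop
  have hcont : Continuous (fun v : ι → ℝ => B v v) := by fun_prop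
  have key : ∃ c > 0, ∀ v ∈ K, B v v ≤ - c := by
    rcases K.eq_empty_or_nonempty with he | hne
    · exact ⟨1, one_pos, fun v hv => by rw [he] at hv; exact absurd hv (Set.notMem_empty v)⟩
    · obtain ⟨v0, hv0, hmax⟩ := hKc.exists_isMaxOn hne hcont.continuousOn
      have h0 : v0 ≠ 0 := by
        intro h0
        have h2 : ‖v0‖ = 1 := by simpa using hv0.2
        rw [h0, norm_zero] at h2
        exact zero_ne_one h2
      exact ⟨- B v0 v0, by linarith [h v0 hv0.1 h0], fun v hv => by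
        rw [neg_neg]; exact hmax hv⟩
  obtain ⟨c, hc, h1⟩ := key
  refine ⟨c, hc, fun v hv => ?_⟩
  by_cases h0 : v = 0
  · rw [h0]; simp
  · have hn : 0 < ‖v‖ := norm_pos_iff.2 h0
    have h2 : (‖v‖⁻¹ • v) ∈ K := by
      refine ⟨fun j => ?_, ?_⟩
      · have h3 : ∑ i, k j i * (‖v‖⁻¹ • v) i = ‖v‖⁻¹ * ∑ i, k j i * v i := by
          rw [Finset.mul_sum]
          refine Finset.sum_congr rfl fun i _ => ?_
          rw [Pi.smul_apply, smul_eq_mul]
          ring
        rw [h3, hv j, mul_zero]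
      · rw [mem_sphere_zero_iff_norm, norm_smul, norm_inv, norm_norm, inv_mul_cancel₀ hn.ne']
    have h3 := h1 _ h2
    rw [map_smul, map_smul, smul_apply, smul_eq_mul, smul_eq_mul] at h3
    have h4 : ‖v‖⁻¹ * (‖v‖⁻¹ * B v v) * ‖v‖ ^ 2 = B v v := by
      field_simp
    have h5 := mul_le_mul_of_nonneg_right h3 (sq_nonneg ‖v‖)
    rw [h4] at h5
    exact h5

/-- **detection**: `f` is small on the affine subspace through the critical point `z` -/
theorem det_bound {ι : Type*} [Fintype ι] {f : (ι → ℝ) → ℝ} (hf : ContDiff ℝ 2 f)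
    {z : ι → ℝ} (hz : fderiv ℝ f z = 0) {r : ℕ} {k : Fin r → ι → ℝ}
    (h : ∀ v : ι → ℝ, (∀ j, ∑ i, k j i * v i = 0) → v ≠ 0 → hess f z v < 0) :
    ∃ c > 0, ∃ ρ > 0, ∀ y : ι → ℝ, ‖y - z‖ ≤ ρ → (∀ j, ∑ i, k j i * (y i - z i) = 0) →
      f y ≤ f z - c * ‖y - z‖ ^ 2 := by
  obtain ⟨c, hc, h1⟩ := quad_le (B := D2 f z) h
  obtain ⟨ρ, hρ, h2⟩ := taylor_lip hf hz (ε := c / 4) (by positivity)
  refine ⟨c / 4, by positivity, ρ, hρ, fun y hy hk => ?_⟩
  have h3 := h2 (y - z) 0 hy (by simpa using hρ.le)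
  have h4 := h1 (y - z) hk
  rw [add_sub_cancel, add_zero, map_zero, zero_div, sub_zero, sub_zero, norm_zero,
    max_eq_left (norm_nonneg _)] at h3
  have h5 := (abs_le.1 h3).2
  nlinarith

end Pool.Agent.H77.TU
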